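import Pool.Agent.Swisher.Main

set_option autoImplicit false

open Finset

namespace Pool.Agent.Results.MP_e1b2c2_nt.SwisherDwork

open Pool.Agent.Swisher

/-- The truncated sum `S(m) = ∑_{k=0}^{(m-1)/2} (-1)^k (4k+1) (1/2)_k^5 / k!^5` (for odd `m`),
where `(1/2)_k` is the rising factorial. -/
noncomputable def S (m : ℕ) : ℚ :=
  ∑ k ∈ Finset.range ((m - 1) / 2 + 1),
    (-1 : ℚ) ^ k * (4 * (k : ℚ) + 1) * ((ascPochhammer ℚ k).eval (1 / 2)) ^ 5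
      / ((k.factorial : ℕ) : ℚ) ^ 5

lemma poch_beta (k : ℕ) :
    (ascPochhammer ℚ k).eval (1 / 2) = beta ℚ k * ((k.factorial : ℕ) : ℚ) := by
  induction k with
  | zero => simp [beta, cb_zero]
  | succ k ih =>
    rw [ascPochhammer_succ_eval, ih, Nat.factorial_succ]
    have h := beta_succ (F := ℚ) k
    push_cast
    linear_combination (-((k.factorial : ℕ) : ℚ) / 2) * h

lemma prod_beta (k : ℕ) :
    ∏ j ∈ range k, (((2 * (j : ℚ) + 1) ^ 4 - 0) / ((2 * (j : ℚ) + 2) ^ 4 - 0)) = (beta ℚ k) ^ 4 := by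
  induction k with
  | zero => simp [beta, cb_zero]
  | succ k ih =>
    rw [prod_range_succ, ih]
    have h := beta_succ (F := ℚ) k
    have h2 : (2 * (k : ℚ) + 2) ≠ 0 := by positivity
    have h3 : beta ℚ (k + 1) = beta ℚ k * (2 * (k : ℚ) + 1) / (2 * (k : ℚ) + 2) := by
      rw [eq_div_iff h2]; exact h
    rw [h3, sub_zero, sub_zero, div_pow, mul_pow, mul_div_assoc]

lemma S_eq (K : ℕ) : S (2 * K + 1) = TT 0 K := by
  unfold S TT
  rw [show (2 * K + 1 - 1) / 2 + 1 = K + 1 by omega]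
  apply sum_congr rfl
  intro k _
  rw [poch_beta, prod_beta]
  have : ((k.factorial : ℕ) : ℚ) ≠ 0 := by exact_mod_cast Nat.factorial_ne_zero k
  field_simp

/-- Swisher's supercongruence for all primes `p ≡ 1 (mod 4)` and all `r ≥ 1`. -/
theorem result (p : ℕ) [Fact p.Prime] (hp : p % 4 = 1) :
    ∃ Γ : ℤ_[p] → ℤ_[p], Continuous Γ ∧
      (∀ n : ℕ, 1 ≤ n →
        Γ (n : ℤ_[p]) = (-1) ^ n * ∏ j ∈ (Finset.Ico 1 n).filter (fun j => ¬ p ∣ j), (j : ℤ_[p])) ∧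
      ∀ x : ℤ_[p], 4 * x = 1 → ∀ r : ℕ, 1 ≤ r → ∃ z : ℤ_[p],
        ((S (p ^ r) : ℚ) : ℚ_[p])
            + (p : ℚ_[p]) * ((Γ x : ℤ_[p]) : ℚ_[p]) ^ 4 * ((S (p ^ (r - 1)) : ℚ) : ℚ_[p])
          = (p : ℚ_[p]) ^ (5 * r) * (z : ℚ_[p]) := by
  have hp2 : p ≠ 2 := by omega
  obtain ⟨G, hc, hv⟩ := morita_exists p hp2
  refine ⟨G, hc, ?_, ?_⟩
  · intro n _
    rw [hv n]
    unfold mg
    push_cast
    rfl
  · intro x hx r hr
    obtain ⟨k, hk⟩ : ∃ k, 2 * k + 1 = p ^ (r - 1) := by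
      refine ⟨p ^ (r - 1) / 2, ?_⟩
      have := pow_mod_four p hp (r - 1)
      omega
    obtain ⟨K, hK⟩ : ∃ K, 2 * K + 1 = p ^ r := by
      refine ⟨p ^ r / 2, ?_⟩
      have := pow_mod_four p hp r
      omega
    have h := main_norm p hp G hc (fun n _ => hv n) x hx r hr k K hk hK
    rw [← S_eq, ← S_eq, hk, hK] at h
    set y : ℚ_[p] := ((S (p ^ r) : ℚ) : ℚ_[p])
            + (p : ℚ_[p]) * ((G x : ℤ_[p]) : ℚ_[p]) ^ 4 * ((S (p ^ (r - 1)) : ℚ) : ℚ_[p])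
    have hpne : (p : ℚ_[p]) ≠ 0 := by
      exact_mod_cast (Fact.out : p.Prime).ne_zero
    have hp0 : (0 : ℝ) < p := by exact_mod_cast (Fact.out : p.Prime).pos
    refine ⟨⟨y / (p : ℚ_[p]) ^ (5 * r), ?_⟩, ?_⟩
    · rw [norm_div, norm_pow, Padic.norm_p, inv_pow, div_inv_eq_mul]
      rw [zpow_neg, zpow_natCast] at h
      calc ‖y‖ * (p : ℝ) ^ (5 * r) ≤ ((p : ℝ) ^ (5 * r))⁻¹ * (p : ℝ) ^ (5 * r) :=
            mul_le_mul_of_nonneg_right h (by positivity)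
        _ = 1 := inv_mul_cancel₀ (by positivity)
    · rw [mul_div_cancel₀]
      exact pow_ne_zero _ hpne

end Pool.Agent.Results.MP_e1b2c2_nt.SwisherDwork
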